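import Pool.Agent.Y924.UF.Main3
import Pool.Agent.Y15.UF.Res
import Pool.Agent.Y528.UF.Cod
import Pool.Agent.Y606.UF.Fin
import Pool.Agent.Y988.UF.Halt
import Pool.Agent.Y304.UF.Cmp
import Pool.Agent.Y686.UF.Clo
import Pool.Agent.Y514.UF.REN
import Pool.Agent.Y383.UF.FML
import Pool.Agent.Y153.UF.SemAB
import Pool.Agent.Y641.UF.Uni
import Pool.Agent.Y675.UF.Root
import Pool.Agent.Y748.UF.Val
import Pool.Agent.Y155.UF.Fin2
import Pool.Agent.Y824.UF.Fint
import Pool.Agent.Y833.UF.Ceq
import Pool.Agent.Y662.UF.CAdd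
import Pool.Agent.Y74.UF.CMUL
import Pool.Agent.Y43.UF.SEM1
import Pool.Agent.Y182.UF.SEM2
import Pool.Agent.Y824.UF.Sem3
import Pool.Agent.Y891.UF.BAS
import Pool.Agent.Y657.UF.Ind
import Pool.Agent.Y409.UF.Full
import Pool.Agent.Y151.UF.Exr
import Pool.Agent.Y431.UF.Cmpa
import Pool.Agent.Y900.UF.Rec
import Pool.Agent.Y931.UF.TCMP
import Pool.Agent.Y286.UF.TFV
import Pool.Agent.Q318.FT.Fin

/-!
# MP_db9079_lc: locally constant values of definable functions in `F_p((t))`, or true arithmetic is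
reducible to its theory

Write `K` for the field `F_p((t))`.  Either the theory of the valued field `K` is at least as
complicated as true arithmetic, or `K` has the following property, similar to Sard's theorem: a
definable function `f : D → K ^ n`, `D` a subset of `K ^ m`, takes at the points of `D` at which it
is locally constant only finitely many values, and in a definable family of such functions the
number of these values is bounded.  So in the second case (in particular if the theory of `K` is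
decidable) the value group, and all the other sorts `K ^ m / E`, `E` an open equivalence relation
(cosets of the valuation ring, balls, lattices), have only finite definable images in `K ^ n`, and
definable sets in `K ^ m` have only finitely many isolated points, uniformly.
-/

set_option autoImplicit false

namespace Pool.Agent.Results.MP_db9079_lc.LocallyConstantValues

open Pool.Agent.Y924.EL
open Function

/-- the valuation ring `F_p[[t]]` in `F_p((t))` -/
def ValRing (p : ℕ) : Set (LaurentSeries (ZMod p)) :=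
  Set.range (algebraMap (PowerSeries (ZMod p)) (LaurentSeries (ZMod p)))

/-- the number `m` is the code of a closed formula which is true in the field `F_p((t))` with the
unary predicate `P` -/
def InTh (p : ℕ) [Fact p.Prime] (P : Set (LaurentSeries (ZMod p))) (m : ℕ) : Prop :=
  ∃ ψ : Fm, ψ.code = m ∧ ψ.fv = ∅ ∧ ∀ v : ℕ → LaurentSeries (ZMod p), Sat P ψ v

/-- true arithmetic, the theory of `(ℕ, +, ·, 1)`, is many-one reducible to the theory of
`F_p((t))` with the unary predicate `P`, by a primitive recursive function; (the formulas of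
arithmetic are those of `Fm`, the predicate means the empty set) -/
def Arith (p : ℕ) [Fact p.Prime] (P : Set (LaurentSeries (ZMod p))) : Prop :=
  ∃ F : ℕ → ℕ, Primrec F ∧ ∀ ψ : Fm, ψ.fv = ∅ →
    ((∀ n : ℕ → ℕ, Sat (∅ : Set ℕ) ψ n) ↔ InTh p P (F ψ.code))

/-- the assignment `c_0, ..., c_(d-1), v_d, v_(d+1), ...`: the point `c` with the parameters
`v_d, v_(d+1), ...` -/
def asg {K : Type} (d : ℕ) (c : Fin d → K) (v : ℕ → K) (k : ℕ) : K :=
  if h : k < d then c ⟨k, h⟩ else v k

/-- `a'` is in the polydisc `a + c F_p[[t]] ^ m` -/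
def Near (p : ℕ) [Fact p.Prime] {m : ℕ} (c : LaurentSeries (ZMod p))
    (a a' : Fin m → LaurentSeries (ZMod p)) : Prop :=
  ∀ k, ∃ z ∈ ValRing p, a k + c * z = a' k

/-- the values which `f`, as a function on `D`, takes at the points of `D` at which it is locally
constant -/
def LocValues (p : ℕ) [Fact p.Prime] {n m : ℕ} (D : Set (Fin m → LaurentSeries (ZMod p)))
    (f : (Fin m → LaurentSeries (ZMod p)) → Fin n → LaurentSeries (ZMod p)) :
    Set (Fin n → LaurentSeries (ZMod p)) :=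
  {b | ∃ a ∈ D, f a = b ∧ ∃ c : LaurentSeries (ZMod p), c ≠ 0 ∧ ∀ a' ∈ D, Near p c a a' →
    f a' = f a}

/-- the formula `φ`, with the parameters `v`, defines the graph of the function `f` on the set `D`:
the variables `x_0, ..., x_(n-1)` stand for the value, `x_n, ..., x_(n+m-1)` for the argument,
the parameters are `v_(n+m), v_(n+m+1), ...` -/
def Graph (p : ℕ) [Fact p.Prime] (P : Set (LaurentSeries (ZMod p))) (φ : Fm) {n m : ℕ}
    (v : ℕ → LaurentSeries (ZMod p)) (D : Set (Fin m → LaurentSeries (ZMod p)))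
    (f : (Fin m → LaurentSeries (ZMod p)) → Fin n → LaurentSeries (ZMod p)) : Prop :=
  ∀ a b, Sat P φ (asg (n + m) (Fin.append b a) v) ↔ a ∈ D ∧ f a = b

/-- in every definable family of functions from subsets of `K ^ m` to `K ^ n` the number of the
values at the points of local constancy is finite and bounded -/
def Sard (p : ℕ) [Fact p.Prime] (P : Set (LaurentSeries (ZMod p))) : Prop :=
  ∀ (φ : Fm) (n m : ℕ), ∃ N : ℕ, ∀ (v : ℕ → LaurentSeries (ZMod p))
    (D : Set (Fin m → LaurentSeries (ZMod p)))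
    (f : (Fin m → LaurentSeries (ZMod p)) → Fin n → LaurentSeries (ZMod p)),
    Graph p P φ v D f → (LocValues p D f).Finite ∧ (LocValues p D f).ncard ≤ N

/-- in every definable family of subsets of `K ^ m` the number of isolated points is finite and
bounded -/
def FewIsolated (p : ℕ) [Fact p.Prime] (P : Set (LaurentSeries (ZMod p))) : Prop :=
  ∀ (φ : Fm) (m : ℕ), ∃ N : ℕ, ∀ (v : ℕ → LaurentSeries (ZMod p))
    (D : Set (Fin m → LaurentSeries (ZMod p))), (∀ a, Sat P φ (asg m a v) ↔ a ∈ D) →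
    {a | a ∈ D ∧ ∃ c : LaurentSeries (ZMod p), c ≠ 0 ∧ ∀ a' ∈ D, Near p c a a' → a' = a}.Finite ∧
    {a | a ∈ D ∧ ∃ c : LaurentSeries (ZMod p), c ≠ 0 ∧ ∀ a' ∈ D, Near p c a a' →
      a' = a}.ncard ≤ N

/-- `x` and `y` have the same valuation -/
def SameVal (p : ℕ) [Fact p.Prime] (x y : LaurentSeries (ZMod p)) : Prop :=
  (∃ z ∈ ValRing p, x * z = y) ∧ ∃ z ∈ ValRing p, y * z = x

/-- in every definable family of functions from sets of `m`-tuples of nonzero elements to `K ^ n`
which depend only on the valuations of the arguments, the number of the values is finite and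
bounded -/
def ValueGroup (p : ℕ) [Fact p.Prime] (P : Set (LaurentSeries (ZMod p))) : Prop :=
  ∀ (φ : Fm) (n m : ℕ), ∃ N : ℕ, ∀ (v : ℕ → LaurentSeries (ZMod p))
    (D : Set (Fin m → LaurentSeries (ZMod p)))
    (f : (Fin m → LaurentSeries (ZMod p)) → Fin n → LaurentSeries (ZMod p)),
    Graph p P φ v D f → (∀ a ∈ D, ∀ k, a k ≠ 0) →
    (∀ a ∈ D, ∀ a' ∈ D, (∀ k, SameVal p (a k) (a' k)) → f a = f a') →
    (f '' D).Finite ∧ (f '' D).ncard ≤ N

open Pool.Agent.Y410.UF in
theorem near_iff (p : ℕ) [Fact p.Prime] {m : ℕ} (c : LaurentSeries (ZMod p)) (hc : c ≠ 0)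
    (a a' : Fin m → LaurentSeries (ZMod p)) : Near p c a a' ↔ ∀ k, w (a' k - a k) ≤ w c := by
  unfold Near
  refine forall_congr' fun k => ?_
  rw [← mem_mul_OO hc]
  constructor
  · rintro ⟨z, hz, h⟩
    exact ⟨z, hz, by rw [← h]; ring⟩
  · rintro ⟨z, hz, h⟩
    exact ⟨z, hz, by rw [h]; ring⟩

theorem asg_eq {K : Type} (d : ℕ) (c : Fin d → K) (v : ℕ → K) :
    asg d c v = Pool.Agent.Q318.FT.pt d c v := rfl

/-- uniform finiteness -/
def Unif (p : ℕ) [Fact p.Prime] (P : Set (LaurentSeries (ZMod p))) : Prop :=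
  ∀ φ : Fm, ∃ N : ℕ, ∀ v, (Pool.Agent.Y924.UF.DefP P φ v).Finite →
    (Pool.Agent.Y924.UF.DefP P φ v).ncard ≤ N

theorem sard_of_unif (p : ℕ) [Fact p.Prime] (P : Set (LaurentSeries (ZMod p)))
    (h : Unif p P) : Sard p P := by
  intro φ n m
  obtain ⟨N, hN⟩ := Pool.Agent.Q318.FT.functions
    (Pool.Agent.Y748.UF.t_VAL Pool.Agent.Y675.UF.t_ROOT) p P h φ n m
  refine ⟨N, fun v D f hf => ?_⟩
  have h1 := hN v D f hf
  have h2 : LocValues p D f = {b | ∃ a ∈ D, f a = b ∧ ∃ c : LaurentSeries (ZMod p), c ≠ 0 ∧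
      ∀ a' ∈ D, (∀ k, Pool.Agent.Y410.UF.w (a' k - a k) ≤ Pool.Agent.Y410.UF.w c) →
        f a' = f a} := by
    ext b
    constructor
    · rintro ⟨a, ha, hb, c, hc, h3⟩
      exact ⟨a, ha, hb, c, hc, fun a' ha' hn => h3 a' ha' ((near_iff p c hc a a').2 hn)⟩
    · rintro ⟨a, ha, hb, c, hc, h3⟩
      exact ⟨a, ha, hb, c, hc, fun a' ha' hn => h3 a' ha' ((near_iff p c hc a a').1 hn)⟩
  rw [h2]
  exact h1

theorem isolated_of_unif (p : ℕ) [Fact p.Prime] (P : Set (LaurentSeries (ZMod p)))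
    (h : Unif p P) : FewIsolated p P := by
  intro φ m
  obtain ⟨N, hN⟩ := Pool.Agent.Q318.FT.isolated
    (Pool.Agent.Y748.UF.t_VAL Pool.Agent.Y675.UF.t_ROOT) p P h φ m
  refine ⟨N, fun v D hD => ?_⟩
  have h1 := hN v D hD
  have h2 : {a | a ∈ D ∧ ∃ c : LaurentSeries (ZMod p), c ≠ 0 ∧ ∀ a' ∈ D, Near p c a a' →
      a' = a} = {a | a ∈ D ∧ ∃ c : LaurentSeries (ZMod p), c ≠ 0 ∧
      ∀ a' ∈ D, (∀ k, Pool.Agent.Y410.UF.w (a' k - a k) ≤ Pool.Agent.Y410.UF.w c) →
        a' = a} := by
    ext a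
    constructor
    · rintro ⟨ha, c, hc, h3⟩
      exact ⟨ha, c, hc, fun a' ha' hn => h3 a' ha' ((near_iff p c hc a a').2 hn)⟩
    · rintro ⟨ha, c, hc, h3⟩
      exact ⟨ha, c, hc, fun a' ha' hn => h3 a' ha' ((near_iff p c hc a a').1 hn)⟩
  rw [h2]
  exact h1

open Pool.Agent.Y410.UF in
theorem sameVal_of (p : ℕ) [Fact p.Prime] {x y : LaurentSeries (ZMod p)} (hx : x ≠ 0)
    (h : w (y - x) < w x) : SameVal p x y := by
  have h1 : w y = w x := by
    have h2 : y = x + (y - x) := by ring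
    rw [h2]
    unfold w at *
    exact Valuation.map_add_eq_of_lt_left _ h
  have hy : y ≠ 0 := by
    rintro rfl
    have h3 : w x ≠ 0 := (Valuation.ne_zero_iff _).2 hx
    apply h3
    rw [← h1]
    simp [w]
  exact ⟨(mem_mul_OO hx y).2 h1.le, (mem_mul_OO hy x).2 h1.ge⟩

open Pool.Agent.Y410.UF in
theorem valueGroup_of_sard (p : ℕ) [Fact p.Prime] (P : Set (LaurentSeries (ZMod p)))
    (h : Sard p P) : ValueGroup p P := by
  classical
  intro φ n m
  obtain ⟨N, hN⟩ := h φ n m
  refine ⟨N, fun v D f hf h0 hc => ?_⟩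
  have h1 : f '' D = LocValues p D f := by
    ext b
    constructor
    · rintro ⟨a, ha, rfl⟩
      -- the radius
      obtain ⟨d, hdF, hd⟩ := Finset.exists_min_image (insert 1 (Finset.univ.image a)) w
        ⟨1, by simp⟩
      have hd0 : d ≠ 0 := by
        rcases Finset.mem_insert.1 hdF with h2 | h2
        · rw [h2]; exact one_ne_zero
        · obtain ⟨k, _, rfl⟩ := Finset.mem_image.1 h2
          exact h0 a ha k
      have ht : w (HahnSeries.single (1 : ℤ) (1 : ZMod p)) < 1 := by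
        unfold w
        rw [LaurentSeries.valuation_single_zpow, ← WithZero.exp_zero]
        exact WithZero.exp_lt_exp.2 (by norm_num)
      have hs0 : HahnSeries.single (1 : ℤ) (1 : ZMod p) * d ≠ 0 :=
        mul_ne_zero (HahnSeries.single_ne_zero one_ne_zero) hd0
      have hwd : w (HahnSeries.single (1 : ℤ) (1 : ZMod p) * d) < w d := by
        have h3 : w d ≠ 0 := (Valuation.ne_zero_iff _).2 hd0
        unfold w at *
        rw [map_mul]
        calc _ < 1 * Valued.v d := mul_lt_mul_of_pos_right ht (zero_lt_iff.2 h3)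
          _ = _ := one_mul _
      refine ⟨a, ha, rfl, _, hs0, fun a' ha' hn => ?_⟩
      rw [near_iff p _ hs0] at hn
      refine (hc a ha a' ha' fun k => sameVal_of p (h0 a ha k) ?_).symm
      exact (hn k).trans_lt (hwd.trans_le (hd _ (Finset.mem_insert_of_mem
        (Finset.mem_image_of_mem a (Finset.mem_univ k)))))
    · rintro ⟨a, ha, hb, _⟩
      exact ⟨a, ha, hb⟩
  rw [h1]
  exact hN v D f hf

theorem unif_of_re (p : ℕ) [Fact p.Prime] (P : Set (LaurentSeries (ZMod p)))
    (h : REPred (InTh p P)) : Unif p P :=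
  Pool.Agent.Y924.UF.uniform2 Pool.Agent.Y15.UF.t_RES Pool.Agent.Y528.UF.t_COD
    Pool.Agent.Y514.UF.t_REN Pool.Agent.Y383.UF.t_FML Pool.Agent.Y153.UF.t_SEMA
    Pool.Agent.Y153.UF.t_SEMB Pool.Agent.Y606.UF.t_FIN
    (Pool.Agent.Y155.UF.t_FIN2 Pool.Agent.Y675.UF.t_ROOT Pool.Agent.Y606.UF.t_FIN)
    (Pool.Agent.Y748.UF.t_VAL Pool.Agent.Y675.UF.t_ROOT) Pool.Agent.Y824.UF.t_FINT
    Pool.Agent.Y641.UF.t_UNI1 Pool.Agent.Y641.UF.t_UNI2 Pool.Agent.Y988.UF.t_HALT
    Pool.Agent.Y304.UF.t_CMP Pool.Agent.Y686.UF.t_CLO Pool.Agent.Y988.UF.t_CINJ p P h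

theorem code_all : Pool.Agent.Y924.UF.S_CODE := by
  intro p _ S hS
  obtain ⟨u, w, h⟩ := Pool.Agent.Y924.UF.cod p Pool.Agent.Y15.UF.t_RES
    Pool.Agent.Y528.UF.t_COD S hS
  exact ⟨_, u, w, h⟩

theorem ind_all : Pool.Agent.Y924.UF.S_IND :=
  Pool.Agent.Y657.UF.t_IND
    (Pool.Agent.Y924.UF.t_BAS Pool.Agent.Y43.UF.t_SEM1 Pool.Agent.Y182.UF.t_SEM2
      Pool.Agent.Y824.UF.t_SEM3 Pool.Agent.Y151.UF.t_EXR Pool.Agent.Y514.UF.t_REN
      (Pool.Agent.Y833.UF.t_CEQ code_all) (Pool.Agent.Y662.UF.t_CADD code_all)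
      (Pool.Agent.Y74.UF.t_CMUL code_all) Pool.Agent.Y606.UF.t_FIN
      (Pool.Agent.Y155.UF.t_FIN2 Pool.Agent.Y675.UF.t_ROOT Pool.Agent.Y606.UF.t_FIN)
      (Pool.Agent.Y748.UF.t_VAL Pool.Agent.Y675.UF.t_ROOT)) Pool.Agent.Y151.UF.t_EXR

theorem tcmp_all : Pool.Agent.Y924.UF.S_TCMP :=
  Pool.Agent.Y931.UF.t_TCMP (Pool.Agent.Y431.UF.t_CMPA Pool.Agent.Y151.UF.t_CMPB)
    Pool.Agent.Y151.UF.t_CMPB Pool.Agent.Y900.UF.t_REC

theorem dichotomy (p : ℕ) [Fact p.Prime] (P : Set (LaurentSeries (ZMod p))) :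
    Unif p P ∨ Arith p P := by
  by_cases h : Unif p P
  · exact Or.inl h
  · right
    unfold Unif at h
    push Not at h
    obtain ⟨φ, hφ⟩ := h
    exact Pool.Agent.Y924.UF.interp Pool.Agent.Y686.UF.t_CLO
      (Pool.Agent.Y409.UF.t_FULL code_all Pool.Agent.Y686.UF.t_CLO) ind_all tcmp_all
      Pool.Agent.Y286.UF.t_TFV Pool.Agent.Y988.UF.t_CINJ p P φ hφ

theorem result (p : ℕ) [Fact p.Prime] :
    -- the theory of the valued field: true arithmetic is reducible to it, or definable functions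
    -- take only finitely many values at points of local constancy, uniformly, functions of the
    -- valuations have finite images, and definable sets have few isolated points; the second is
    -- true if the theory is recursively enumerable
    ((Sard p (ValRing p) ∧ ValueGroup p (ValRing p) ∧ FewIsolated p (ValRing p)) ∨
      Arith p (ValRing p)) ∧
    (REPred (InTh p (ValRing p)) →
      Sard p (ValRing p) ∧ ValueGroup p (ValRing p) ∧ FewIsolated p (ValRing p)) ∧
    -- the same for the field with any unary predicate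
    ∀ P : Set (LaurentSeries (ZMod p)),
      ((Sard p P ∧ ValueGroup p P ∧ FewIsolated p P) ∨ Arith p P) ∧
      (REPred (InTh p P) → Sard p P ∧ ValueGroup p P ∧ FewIsolated p P) := by
  have key : ∀ P : Set (LaurentSeries (ZMod p)), Unif p P →
      Sard p P ∧ ValueGroup p P ∧ FewIsolated p P := fun P h =>
    ⟨sard_of_unif p P h, valueGroup_of_sard p P (sard_of_unif p P h), isolated_of_unif p P h⟩
  have h1 : ∀ P : Set (LaurentSeries (ZMod p)),
      ((Sard p P ∧ ValueGroup p P ∧ FewIsolated p P) ∨ Arith p P) ∧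
      (REPred (InTh p P) → Sard p P ∧ ValueGroup p P ∧ FewIsolated p P) := fun P =>
    ⟨(dichotomy p P).imp_left (key P), fun h => key P (unif_of_re p P h)⟩
  exact ⟨(h1 _).1, (h1 _).2, h1⟩

end Pool.Agent.Results.MP_db9079_lc.LocallyConstantValues
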