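import Pool.Agent.Y924.UF.Main3
import Pool.Agent.Y15.UF.Res
import Pool.Agent.Y528.UF.Cod
import Pool.Agent.Y606.UF.Fin
import Pool.Agent.Y988.UF.Halt
import Pool.Agent.Y304.UF.Cmp
import Pool.Agent.Y686.UF.Clo
import Pool.Agent.Y514.UF.REN
import Pool.Agent.Y383.UF.FML
import Pool.Agent.Y153.UF.SemAB
import Pool.Agent.Y641.UF.Uni
import Pool.Agent.Y675.UF.Root
import Pool.Agent.Y748.UF.Val
import Pool.Agent.Y155.UF.Fin2
import Pool.Agent.Y824.UF.Fint
import Pool.Agent.Y833.UF.Ceq
import Pool.Agent.Y662.UF.CAdd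
import Pool.Agent.Y74.UF.CMUL
import Pool.Agent.Y43.UF.SEM1
import Pool.Agent.Y182.UF.SEM2
import Pool.Agent.Y824.UF.Sem3
import Pool.Agent.Y891.UF.BAS
import Pool.Agent.Y657.UF.Ind
import Pool.Agent.Y409.UF.Full
import Pool.Agent.Y151.UF.Exr
import Pool.Agent.Y431.UF.Cmpa
import Pool.Agent.Y900.UF.Rec
import Pool.Agent.Y931.UF.TCMP
import Pool.Agent.Y286.UF.TFV
import Pool.Agent.Q318.FT.Fin
import Pool.Agent.Q52.DK.Form

/-!
# MP_db9079_lc: relatively dense definable sets in `F_p((t))`, or true arithmetic is reducible to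
its theory

Write `K` for the field `F_p((t))`, `O = F_p[[t]]`.  Either the theory of the valued field `K` is
at least as complicated as true arithmetic, or `K` has the following property: a definable subset
of `K ^ m` which generates a relatively dense subgroup `G` (`G + c O ^ m = K ^ m` for some `c`)
generates a dense subgroup of an open subgroup of finite index, and in a definable family of such
sets the index is bounded.  So in the second case (in particular if the theory of `K` is
decidable) the closed definable subgroups of `K ^ m` with compact quotient have finite index, and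
the closed subgroups of finite index in a definable family have bounded index (this is false for
subgroups of `O`: the groups `t ^ n O` are a definable family).

Proof.  The pairing `(a, b) ↦ (∑ a_k b_k)_0` (constant coefficient) is definable, and identifies
`K ^ m` with its dual group.  So the annihilator of a definable set is definable, uniformly; it is
discrete if the set generates a relatively dense subgroup; and discrete definable sets are finite,
with a uniform bound, or else true arithmetic is reducible to the theory of `K`.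
-/

set_option autoImplicit false

namespace Pool.Agent.Results.MP_db9079_lc.RelativelyDenseSets

open Pool.Agent.Y924.EL
open Function

/-- the valuation ring `F_p[[t]]` in `F_p((t))` -/
def ValRing (p : ℕ) : Set (LaurentSeries (ZMod p)) :=
  Set.range (algebraMap (PowerSeries (ZMod p)) (LaurentSeries (ZMod p)))

/-- the number `m` is the code of a closed formula which is true in the field `F_p((t))` with the
unary predicate `P` -/
def InTh (p : ℕ) [Fact p.Prime] (P : Set (LaurentSeries (ZMod p))) (m : ℕ) : Prop :=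
  ∃ ψ : Fm, ψ.code = m ∧ ψ.fv = ∅ ∧ ∀ v : ℕ → LaurentSeries (ZMod p), Sat P ψ v

/-- true arithmetic, the theory of `(ℕ, +, ·, 1)`, is many-one reducible to the theory of
`F_p((t))` with the unary predicate `P`, by a primitive recursive function; (the formulas of
arithmetic are those of `Fm`, the predicate means the empty set) -/
def Arith (p : ℕ) [Fact p.Prime] (P : Set (LaurentSeries (ZMod p))) : Prop :=
  ∃ F : ℕ → ℕ, Primrec F ∧ ∀ ψ : Fm, ψ.fv = ∅ →
    ((∀ n : ℕ → ℕ, Sat (∅ : Set ℕ) ψ n) ↔ InTh p P (F ψ.code))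

/-- the assignment `c_0, ..., c_(d-1), v_d, v_(d+1), ...`: the point `c` with the parameters
`v_d, v_(d+1), ...` -/
def asg {K : Type} (d : ℕ) (c : Fin d → K) (v : ℕ → K) (k : ℕ) : K :=
  if h : k < d then c ⟨k, h⟩ else v k

/-- `a'` is in the polydisc `a + c F_p[[t]] ^ m` -/
def Near (p : ℕ) [Fact p.Prime] {m : ℕ} (c : LaurentSeries (ZMod p))
    (a a' : Fin m → LaurentSeries (ZMod p)) : Prop :=
  ∀ k, ∃ z ∈ ValRing p, a k + c * z = a' k

/-- `S + c F_p[[t]] ^ m` is the whole space for some `c ≠ 0` -/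
def RelDense (p : ℕ) [Fact p.Prime] {m : ℕ} (S : Set (Fin m → LaurentSeries (ZMod p))) : Prop :=
  ∃ c : LaurentSeries (ZMod p), c ≠ 0 ∧ ∀ x, ∃ y ∈ S, Near p c y x

/-- `S` is a dense subset of `H` -/
def DenseIn (p : ℕ) [Fact p.Prime] {m : ℕ} (S H : Set (Fin m → LaurentSeries (ZMod p))) : Prop :=
  S ⊆ H ∧ ∀ x ∈ H, ∀ c : LaurentSeries (ZMod p), c ≠ 0 → ∃ y ∈ S, Near p c y x

/-- in every definable family of subsets `D` of `K ^ m` there is a bound `N` such that each `D`
which generates a relatively dense subgroup of `K ^ m` generates a dense subgroup of an open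
subgroup of `K ^ m` whose index is finite and at most `N` -/
def FiniteIndex (p : ℕ) [Fact p.Prime] (P : Set (LaurentSeries (ZMod p))) : Prop :=
  ∀ (φ : Fm) (m : ℕ), ∃ N : ℕ, ∀ (v : ℕ → LaurentSeries (ZMod p))
    (D : Set (Fin m → LaurentSeries (ZMod p))), (∀ a, Sat P φ (asg m a v) ↔ a ∈ D) →
    RelDense p (AddSubgroup.closure D : Set (Fin m → LaurentSeries (ZMod p))) →
    ∃ H : AddSubgroup (Fin m → LaurentSeries (ZMod p)), H.index ≠ 0 ∧ H.index ≤ N ∧
      (∃ c : LaurentSeries (ZMod p), c ≠ 0 ∧ ∀ x, Near p c 0 x → x ∈ H) ∧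
      DenseIn p (AddSubgroup.closure D : Set (Fin m → LaurentSeries (ZMod p))) H

/-- the group of all series in which the coefficient of `t ^ n` is `0` for all `n ≥ 0` which are
not in `A` -/
def Supp (p : ℕ) (A : Set ℕ) : Set (LaurentSeries (ZMod p)) :=
  {x | ∀ n : ℕ, n ∉ A → x.coeff (n : ℤ) = 0}

open Pool.Agent.Y410.UF in
theorem near_iff (p : ℕ) [Fact p.Prime] {m : ℕ} (c : LaurentSeries (ZMod p)) (hc : c ≠ 0)
    (a a' : Fin m → LaurentSeries (ZMod p)) : Near p c a a' ↔ ∀ k, w (a' k - a k) ≤ w c := by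
  unfold Near
  refine forall_congr' fun k => ?_
  rw [← mem_mul_OO hc]
  constructor
  · rintro ⟨z, hz, h⟩
    exact ⟨z, hz, by rw [← h]; ring⟩
  · rintro ⟨z, hz, h⟩
    exact ⟨z, hz, by rw [h]; ring⟩

open Pool.Agent.Q52.DK in
/-- the polydiscs and the coefficients -/
theorem near_low (p : ℕ) [Fact p.Prime] {c : LaurentSeries (ZMod p)} (hc : c ≠ 0) :
    ∃ r : ℤ, ∀ (m : ℕ) (a a' : Fin m → LaurentSeries (ZMod p)),
      Near p c a a' ↔ Low r (a' - a) := by
  obtain ⟨r, hr⟩ := w_le_iff hc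
  refine ⟨r, fun m a a' => ?_⟩
  rw [near_iff p c hc]
  exact forall_congr' fun k => hr _

theorem w_single (p : ℕ) [Fact p.Prime] (s : ℤ) :
    Pool.Agent.Y410.UF.w (HahnSeries.single s (1 : ZMod p)) = WithZero.exp (-s) :=
  LaurentSeries.valuation_single_zpow _ _

theorem single_ne (p : ℕ) [Fact p.Prime] (s : ℤ) :
    (HahnSeries.single s (1 : ZMod p) : LaurentSeries (ZMod p)) ≠ 0 :=
  HahnSeries.single_ne_zero one_ne_zero

open Pool.Agent.Q52.DK in
/-- the polydiscs with radius a power of `t` -/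
theorem near_single (p : ℕ) [Fact p.Prime] (s : ℤ) {m : ℕ}
    (a a' : Fin m → LaurentSeries (ZMod p)) :
    Near p (HahnSeries.single s (1 : ZMod p)) a a' ↔ Low s (a' - a) := by
  rw [near_iff p _ (single_ne p s)]
  refine forall_congr' fun k => ?_
  rw [w_single]
  exact LaurentSeries.valuation_le_iff_coeff_lt_eq_zero _

open Pool.Agent.Q52.DK in
theorem finiteIndex_of_unif (p : ℕ) [Fact p.Prime] (P : Set (LaurentSeries (ZMod p)))
    (h : ∀ φ : Fm, ∃ N : ℕ, ∀ v, (Pool.Agent.Y924.UF.DefP P φ v).Finite →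
      (Pool.Agent.Y924.UF.DefP P φ v).ncard ≤ N) : FiniteIndex p P := by
  intro φ m
  obtain ⟨N, hN⟩ := main Pool.Agent.Y15.UF.t_RES
    (Pool.Agent.Y748.UF.t_VAL Pool.Agent.Y675.UF.t_ROOT) P h φ m
  refine ⟨N, fun v D hD ⟨c, hc, hr⟩ => ?_⟩
  obtain ⟨r, hcr⟩ := near_low p hc
  obtain ⟨H, h1, h2, ⟨s, h3⟩, h4, h5⟩ := hN v D hD ⟨r, fun x => by
    obtain ⟨y, hy, hyx⟩ := hr x
    exact ⟨y, hy, (hcr m y x).1 hyx⟩⟩
  refine ⟨H, h1, h2, ⟨HahnSeries.single s 1, single_ne p s, fun x hx => ?_⟩, h4,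
    fun x hx d hd => ?_⟩
  · rw [near_single, sub_zero] at hx
    exact h3 x hx
  · obtain ⟨r', hr'⟩ := near_low p hd
    obtain ⟨y, hy, hyx⟩ := h5 x hx r'
    exact ⟨y, hy, (hr' m y x).2 hyx⟩

/-- uniform finiteness -/
def Unif (p : ℕ) [Fact p.Prime] (P : Set (LaurentSeries (ZMod p))) : Prop :=
  ∀ φ : Fm, ∃ N : ℕ, ∀ v, (Pool.Agent.Y924.UF.DefP P φ v).Finite →
    (Pool.Agent.Y924.UF.DefP P φ v).ncard ≤ N

theorem unif_of_re (p : ℕ) [Fact p.Prime] (P : Set (LaurentSeries (ZMod p)))
    (h : REPred (InTh p P)) : Unif p P :=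
  Pool.Agent.Y924.UF.uniform2 Pool.Agent.Y15.UF.t_RES Pool.Agent.Y528.UF.t_COD
    Pool.Agent.Y514.UF.t_REN Pool.Agent.Y383.UF.t_FML Pool.Agent.Y153.UF.t_SEMA
    Pool.Agent.Y153.UF.t_SEMB Pool.Agent.Y606.UF.t_FIN
    (Pool.Agent.Y155.UF.t_FIN2 Pool.Agent.Y675.UF.t_ROOT Pool.Agent.Y606.UF.t_FIN)
    (Pool.Agent.Y748.UF.t_VAL Pool.Agent.Y675.UF.t_ROOT) Pool.Agent.Y824.UF.t_FINT
    Pool.Agent.Y641.UF.t_UNI1 Pool.Agent.Y641.UF.t_UNI2 Pool.Agent.Y988.UF.t_HALT
    Pool.Agent.Y304.UF.t_CMP Pool.Agent.Y686.UF.t_CLO Pool.Agent.Y988.UF.t_CINJ p P h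

theorem code_all : Pool.Agent.Y924.UF.S_CODE := by
  intro p _ S hS
  obtain ⟨u, w, h⟩ := Pool.Agent.Y924.UF.cod p Pool.Agent.Y15.UF.t_RES
    Pool.Agent.Y528.UF.t_COD S hS
  exact ⟨_, u, w, h⟩

theorem ind_all : Pool.Agent.Y924.UF.S_IND :=
  Pool.Agent.Y657.UF.t_IND
    (Pool.Agent.Y924.UF.t_BAS Pool.Agent.Y43.UF.t_SEM1 Pool.Agent.Y182.UF.t_SEM2
      Pool.Agent.Y824.UF.t_SEM3 Pool.Agent.Y151.UF.t_EXR Pool.Agent.Y514.UF.t_REN
      (Pool.Agent.Y833.UF.t_CEQ code_all) (Pool.Agent.Y662.UF.t_CADD code_all)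
      (Pool.Agent.Y74.UF.t_CMUL code_all) Pool.Agent.Y606.UF.t_FIN
      (Pool.Agent.Y155.UF.t_FIN2 Pool.Agent.Y675.UF.t_ROOT Pool.Agent.Y606.UF.t_FIN)
      (Pool.Agent.Y748.UF.t_VAL Pool.Agent.Y675.UF.t_ROOT)) Pool.Agent.Y151.UF.t_EXR

theorem tcmp_all : Pool.Agent.Y924.UF.S_TCMP :=
  Pool.Agent.Y931.UF.t_TCMP (Pool.Agent.Y431.UF.t_CMPA Pool.Agent.Y151.UF.t_CMPB)
    Pool.Agent.Y151.UF.t_CMPB Pool.Agent.Y900.UF.t_REC

theorem dichotomy (p : ℕ) [Fact p.Prime] (P : Set (LaurentSeries (ZMod p))) :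
    Unif p P ∨ Arith p P := by
  by_cases h : Unif p P
  · exact Or.inl h
  · right
    unfold Unif at h
    push Not at h
    obtain ⟨φ, hφ⟩ := h
    exact Pool.Agent.Y924.UF.interp Pool.Agent.Y686.UF.t_CLO
      (Pool.Agent.Y409.UF.t_FULL code_all Pool.Agent.Y686.UF.t_CLO) ind_all tcmp_all
      Pool.Agent.Y286.UF.t_TFV Pool.Agent.Y988.UF.t_CINJ p P φ hφ

/-- the group `Supp p A` is closed, relatively dense, and of infinite index -/
theorem not_finiteIndex (p : ℕ) [Fact p.Prime] (A : Set ℕ) (hA : Aᶜ.Infinite) :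
    ¬ FiniteIndex p (Supp p A) := by
  classical
  intro hF
  obtain ⟨N, hN⟩ := hF (.val 0) 1
  set D : Set (Fin 1 → LaurentSeries (ZMod p)) := {a | a 0 ∈ Supp p A} with hD
  have hcl : ∀ y ∈ AddSubgroup.closure D, y ∈ D := by
    intro y hy
    induction hy using AddSubgroup.closure_induction with
    | mem x hx => exact hx
    | zero => exact fun n _ => rfl
    | add x y _ _ hx hy =>
      intro n hn
      rw [Pi.add_apply, HahnSeries.coeff_add, hx n hn, hy n hn, add_zero]
    | neg x _ hx =>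
      intro n hn
      rw [Pi.neg_apply, HahnSeries.coeff_neg, hx n hn, neg_zero]
  obtain ⟨H, h1, -, -, -, h2⟩ := hN 0 D (fun a => by
    show asg 1 a 0 0 ∈ Supp p A ↔ a ∈ D
    rw [hD, Set.mem_ofPred_eq, asg, dif_pos (by norm_num)]
    rfl) ⟨1, one_ne_zero, fun x => by
      let y : LaurentSeries (ZMod p) :=
        { coeff := fun n => if n < 0 then (x 0).coeff n else 0
          isPWO_support' := by
            refine (x 0).isPWO_support'.mono ?_
            intro n hn
            rw [Function.mem_support] at hn ⊢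
            intro h0
            apply hn
            simp [h0] }
      have hy : ∀ n, y.coeff n = if n < 0 then (x 0).coeff n else 0 := fun n => rfl
      refine ⟨fun _ => y, AddSubgroup.subset_closure ?_, ?_⟩
      · intro n _
        show y.coeff (n : ℤ) = 0
        rw [hy, if_neg (by omega)]
      · have h3 : (1 : LaurentSeries (ZMod p)) = HahnSeries.single (0 : ℤ) 1 := rfl
        rw [h3, near_single]
        intro k n hn
        have hk : k = 0 := Subsingleton.elim _ _
        subst hk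
        show (x 0 - y).coeff n = 0
        rw [HahnSeries.coeff_sub, hy, if_pos hn, sub_self]⟩
  have hH : ∀ x ∈ H, x ∈ D := by
    intro x hx n hn
    obtain ⟨y, hy, hyx⟩ := h2 x hx (HahnSeries.single ((n : ℤ) + 1) 1) (single_ne p _)
    rw [near_single] at hyx
    have h3 := hyx 0 n (by omega)
    rw [Pi.sub_apply, HahnSeries.coeff_sub, hcl y hy n hn, sub_zero] at h3
    exact h3
  have hfin : Finite ((Fin 1 → LaurentSeries (ZMod p)) ⧸ H) := by
    rw [AddSubgroup.index] at h1
    exact (Nat.card_ne_zero.1 h1).2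
  have hinf : Infinite (Aᶜ : Set ℕ) := hA.to_subtype
  obtain ⟨a, b, hab, hne⟩ : ∃ a b : (Aᶜ : Set ℕ),
      (QuotientAddGroup.mk (s := H) (fun _ => HahnSeries.single ((a : ℕ) : ℤ) (1 : ZMod p))) =
        QuotientAddGroup.mk (s := H) (fun _ => HahnSeries.single ((b : ℕ) : ℤ) (1 : ZMod p)) ∧
      a ≠ b := by
    by_contra hcon
    push Not at hcon
    exact not_injective_infinite_finite (fun a : (Aᶜ : Set ℕ) =>
      QuotientAddGroup.mk (s := H) (fun _ : Fin 1 =>
        (HahnSeries.single ((a : ℕ) : ℤ) (1 : ZMod p) : LaurentSeries (ZMod p))))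
      fun a b hab => hcon a b hab
  rw [QuotientAddGroup.eq] at hab
  have h3 := hH _ hab b b.2
  rw [Pi.add_apply, Pi.neg_apply, HahnSeries.coeff_add, HahnSeries.coeff_neg,
    HahnSeries.coeff_single_same, HahnSeries.coeff_single_of_ne, neg_zero, zero_add] at h3
  · exact one_ne_zero h3
  · intro h
    exact hne (Subtype.ext (by exact_mod_cast h.symm))

theorem result (p : ℕ) [Fact p.Prime] :
    -- the theory of the valued field: true arithmetic is reducible to it, or definable sets which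
    -- generate relatively dense subgroups generate dense subgroups of open subgroups of finite
    -- index, uniformly; the second is true if the theory is recursively enumerable
    (FiniteIndex p (ValRing p) ∨ Arith p (ValRing p)) ∧
    (REPred (InTh p (ValRing p)) → FiniteIndex p (ValRing p)) ∧
    -- the same for the field with any unary predicate
    (∀ P : Set (LaurentSeries (ZMod p)),
      (FiniteIndex p P ∨ Arith p P) ∧ (REPred (InTh p P) → FiniteIndex p P)) ∧
    -- the field with a predicate for one of the closed cocompact groups `Supp p A` of infinite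
    -- index: true arithmetic is reducible to the theory
    (∀ A : Set ℕ, Aᶜ.Infinite → Arith p (Supp p A) ∧ ¬ REPred (InTh p (Supp p A))) := by
  have h1 : ∀ P : Set (LaurentSeries (ZMod p)),
      (FiniteIndex p P ∨ Arith p P) ∧ (REPred (InTh p P) → FiniteIndex p P) := fun P =>
    ⟨(dichotomy p P).imp_left (finiteIndex_of_unif p P), fun h =>
      finiteIndex_of_unif p P (unif_of_re p P h)⟩
  exact ⟨(h1 _).1, (h1 _).2, h1, fun A hA =>
    ⟨(h1 _).1.resolve_left (not_finiteIndex p A hA), fun h =>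
      not_finiteIndex p A hA ((h1 _).2 h)⟩⟩

end Pool.Agent.Results.MP_db9079_lc.RelativelyDenseSets
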